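import Mathlib
import Pool.Agent.Helper59.ZP.TateIff

/-!
# The quantization law: the limit of the proportion
-/

universe u v w

open CategoryTheory Filter Topology

namespace Pool.Agent.Helper59.P2

open Pool.Agent.Helper10 Pool.Agent.Helper11 SmProjVar Pool.Agent.Helper59.ZO
  Pool.Agent.Helper34.ZP Pool.Agent.Helper59.ZP

variable {k : Type u} [Field k] {K : Type v} [Field K] [CharZero K]
  {W : WeilCohomology.{u, v, w} k K} {X : SmProjVar k}
  {V : ∀ n : ℕ, Submodule K (W.H (X.selfProd n))}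

lemma density_eq_one (hV : IsSystem W.toCohomologyData X V)
    (hD : StandardDPowers W.toCohomologyData X) (h : IsAlgebraicSystem W.toCohomologyData X V)
    (m : ℕ) : density W.toCohomologyData X V m = 1 := by
  have h1 : V m = W.algClasses (X.selfProd m) := le_antisymm (h m) (hV.alg_le m)
  have h2 := numCycRank_eq_of_standardD W (hD m)
  have h3 := sys_pos hV m
  have h4 : (cycRank W.toCohomologyData (X.selfProd m) : ℝ) = Module.finrank K (V m) := by
    rw [h1]
    rfl
  unfold density
  rw [h2, h4, div_self h3.ne']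

/-- **The quantization law**: the proportion converges, to `0` or to `1 / d`. -/
theorem limit_law (hV : IsSystem W.toCohomologyData X V) :
    ∃ L : ℝ, Tendsto (density W.toCohomologyData X V) atTop (𝓝 L) ∧
      (L = 0 ∨ ∃ d : ℕ, 1 ≤ d ∧ L = 1 / d) ∧ (L ≠ 0 → ∀ m, W.StandardD (X.selfProd m)) ∧
      (L = 1 ↔ ∀ m, W.StandardD (X.selfProd m) ∧ V m = W.algClasses (X.selfProd m)) := by
  have key : (∀ m, W.StandardD (X.selfProd m) ∧ V m = W.algClasses (X.selfProd m)) →
      Tendsto (density W.toCohomologyData X V) atTop (𝓝 1) := by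
    intro h
    have h1 : density W.toCohomologyData X V = fun _ => 1 := by
      funext m
      exact density_eq_one hV (fun n => (h n).1) (fun n => (h n).2.le) m
    rw [h1]
    exact tendsto_const_nhds
  rcases quantization_law hV with h | ⟨hD, d, hd, hd1, h⟩
  · refine ⟨0, h, .inl rfl, fun h0 => absurd rfl h0, fun h0 => absurd h0 (by norm_num), fun h0 => ?_⟩
    exact tendsto_nhds_unique h (key h0)
  · refine ⟨1 / d, h, .inr ⟨d, hd, rfl⟩, fun _ => hD, fun h0 m => ⟨hD m, ?_⟩, fun h0 => ?_⟩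
    · have hd0 : (d : ℝ) ≠ 0 := by
        have : d ≠ 0 := by omega
        exact_mod_cast this
      have h1 : d = 1 := by
        rw [div_eq_iff hd0, one_mul] at h0
        exact_mod_cast h0.symm
      exact le_antisymm (hd1.mp h1 m) (hV.alg_le m)
    · exact tendsto_nhds_unique h (key h0)

/-- **The quantization law for perfect systems.** -/
theorem limit_law_perfect (hV : IsPerfectSystem W.toCohomologyData X V) :
    ∃ L : ℝ, Tendsto (density W.toCohomologyData X V) atTop (𝓝 L) ∧
      (L = 0 ∨ ∃ d : ℕ, 1 ≤ d ∧ L = 1 / d) ∧ (L ≠ 0 → ∀ m, W.StandardD (X.selfProd m)) ∧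
      (L = 1 ↔ IsAlgebraicSystem W.toCohomologyData X V) := by
  obtain ⟨L, h, hL, hD, h1⟩ := limit_law hV.toIsSystem
  refine ⟨L, h, hL, hD, h1.trans ⟨fun h2 m => (h2 m).2.le, fun h2 => ?_⟩⟩
  have h4 := (isAlgebraicSystem_iff hV.toIsSystem).mp h2
  have h3 : IsMostlyAlgebraic W.toCohomologyData X V := by
    refine ⟨1 / 4, by norm_num, fun N => ⟨N, le_rfl, ?_⟩⟩
    have h5 : (cycRank W.toCohomologyData (X.selfProd N) : ℝ) = Module.finrank K (V N) := by
      rw [h4 N]
      rfl
    have h6 := sys_pos hV.toIsSystem N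
    rw [h5]
    linarith
  exact fun m => ⟨((half_iff hV).mpr h3).1 m, h4 m⟩

/-- **The quantization law for Tate classes.** -/
theorem limit_law_tate [Finite k] (W : WeilCohomology.{u, v, w} k K) (X : SmProjVar k) :
    ∃ L : ℝ, Tendsto (density W.toCohomologyData X (tateSystem W.toCohomologyData X)) atTop (𝓝 L) ∧
      (L = 0 ∨ ∃ d : ℕ, 1 ≤ d ∧ L = 1 / d) ∧
      (L ≠ 0 → ∀ m, W.StandardD (X.selfProd m) ∧
        IsFrobeniusSemisimple W.toCohomologyData (X.selfProd m)) ∧
      (L = 1 ↔ IsAlgebraicSystem W.toCohomologyData X (tateSystem W.toCohomologyData X)) := by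
  obtain ⟨hP, hS⟩ := tate_law W X
  obtain ⟨L, h, hL, hD, h1⟩ := limit_law_perfect hP
  refine ⟨L, h, hL, fun h0 m => ⟨hD h0 m, hS (fun h2 => h0 ?_) m⟩, h1⟩
  exact tendsto_nhds_unique h h2

end Pool.Agent.Helper59.P2
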