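import Mathlib
import Pool.Agent.Helper47.PR.Numeric

/-!
# The polynomial rate without hypotheses: the numerical part
-/

open Finset

namespace Pool.Agent.Helper59.P2

/-- the sizes of the steps -/
def Ls : ℕ → ℕ
  | 0 => 2
  | (i + 1) => 3 * Ls i / 2

lemma two_le_Ls (i : ℕ) : 2 ≤ Ls i := by
  induction i with
  | zero => exact le_rfl
  | succ i ih =>
    have e : Ls (i + 1) = 3 * Ls i / 2 := rfl
    omega

lemma Ls_succ (i : ℕ) : 4 * Ls i ≤ 3 * Ls (i + 1) := by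
  have h := two_le_Ls i
  have e : Ls (i + 1) = 3 * Ls i / 2 := rfl
  omega

lemma Ls_lt (i : ℕ) : Ls i + 1 ≤ Ls (i + 1) := by
  have h := two_le_Ls i
  have e : Ls (i + 1) = 3 * Ls i / 2 := rfl
  omega

lemma Ls_mono : Monotone Ls := monotone_nat_of_le_succ fun i => by
  have := Ls_lt i
  omega

lemma le_Ls (i : ℕ) : i ≤ Ls i := by
  induction i with
  | zero => exact Nat.zero_le _
  | succ i ih =>
    have := Ls_lt i
    omega

lemma two_mul_Ls (i : ℕ) : 2 * Ls i ≤ Ls (i + 3) := by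
  have h1 := Ls_succ i
  have h2 := Ls_succ (i + 1)
  have h3 := Ls_succ (i + 2)
  have e1 : Ls (i + 1 + 1) = Ls (i + 2) := rfl
  have e2 : Ls (i + 2 + 1) = Ls (i + 3) := rfl
  omega

lemma pow_le_Ls (i : ℕ) : (4 / 3 : ℝ) ^ i ≤ Ls i := by
  induction i with
  | zero =>
    have e : Ls 0 = 2 := rfl
    rw [pow_zero, e]
    norm_num
  | succ i ih =>
    have h : (4 : ℝ) * Ls i ≤ 3 * Ls (i + 1) := by exact_mod_cast Ls_succ i
    rw [pow_succ]
    linarith

lemma twenty_pow (i : ℕ) : (20 : ℝ) ^ i ≤ (Ls i : ℝ) ^ 11 := by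
  have h1 : (20 : ℝ) ≤ (4 / 3) ^ 11 := by norm_num
  calc (20 : ℝ) ^ i ≤ ((4 / 3 : ℝ) ^ 11) ^ i := pow_le_pow_left₀ (by norm_num) h1 i
    _ = ((4 / 3 : ℝ) ^ i) ^ 11 := by rw [← pow_mul, ← pow_mul, mul_comm]
    _ ≤ _ := pow_le_pow_left₀ (by positivity) (pow_le_Ls i) 11

/-- the telescoping factors -/
def ts (s : ℕ → ℕ) : ℕ → ℕ
  | 0 => 1
  | 1 => 1
  | 2 => 1
  | (i + 3) => s (Ls i)

section

variable {s : ℕ → ℕ} (hs : ∀ k, 1 ≤ s k)
  (hlc : ∀ i j, 1 ≤ j → j + 1 ≤ i → s (i + 1) * s j ≤ s i * s (j + 1))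

include hs hlc

/-- a log-concave sequence of positive integers increases -/
lemma s_succ {m : ℕ} (hm : 1 ≤ m) : s m ≤ s (m + 1) := by
  by_contra hcon
  have hlt : s (m + 1) + 1 ≤ s m := by omega
  have hstep : ∀ i, m + 1 ≤ i → s (i + 1) + 1 ≤ s i := by
    intro i hi
    have h1 := hlc i m hm hi
    have h2 : s (i + 1) * s m < s i * s m := by
      refine lt_of_le_of_lt h1 ?_
      exact Nat.mul_lt_mul_of_pos_left (by omega) (hs i)
    have h3 := lt_of_mul_lt_mul_right h2 (Nat.zero_le _)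
    omega
  have hdec : ∀ t, s (m + 1 + t) + t ≤ s (m + 1) := by
    intro t
    induction t with
    | zero => exact le_rfl
    | succ t ih =>
      have h1 := hstep (m + 1 + t) (by omega)
      have e : m + 1 + (t + 1) = m + 1 + t + 1 := by ring
      rw [e]
      omega
  have h1 := hdec (s (m + 1))
  have h2 := hs (m + 1 + s (m + 1))
  omega

lemma s_mono {i j : ℕ} (hi : 1 ≤ i) (hij : i ≤ j) : s i ≤ s j := by
  obtain ⟨t, rfl⟩ := Nat.exists_eq_add_of_le hij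
  clear hij
  induction t with
  | zero => exact le_rfl
  | succ t ih =>
    exact ih.trans (s_succ hs hlc (by omega))

lemma ts_le {i j : ℕ} (h : Ls i ≤ j) {m : ℕ} (hm : m ≤ i + 3) : ts s m ≤ s j := by
  match m, hm with
  | 0, _ => exact hs j
  | 1, _ => exact hs j
  | 2, _ => exact hs j
  | (m + 3), hm =>
    have h1 := two_le_Ls m
    exact s_mono hs hlc (by omega) ((Ls_mono (by omega : m ≤ i)).trans h)

/-- a lower bound for the values from `Ls i / 2` on -/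
lemma ts_le_half {i j : ℕ} (h : Ls i ≤ 2 * j) : ts s i ≤ s j := by
  match i, h with
  | 0, _ => exact hs j
  | 1, _ => exact hs j
  | 2, _ => exact hs j
  | (i + 3), h =>
    have h1 := two_le_Ls i
    have h2 := two_mul_Ls i
    exact s_mono hs hlc (by omega) (by omega)

lemma one_le_ts (i : ℕ) : 1 ≤ ts s i := by
  match i with
  | 0 => exact le_rfl
  | 1 => exact le_rfl
  | 2 => exact le_rfl
  | (i + 3) => exact hs _

/-- the bound for the defects -/
theorem defect_bound2 {d : ℕ} (hsd : ∀ k, s k ≤ (k + 1) ^ d) {cl φ : ℝ} (hcl : 0 ≤ cl)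
    (hφ : 0 ≤ φ) {δ : ℕ → ℝ} {N : ℕ → ℕ → ℝ}
    (hN : ∀ i j, 1 ≤ j → j + 1 ≤ i → N (i + 1) j ≤ N i (j + 1))
    (hmul : ∀ i, 1 ≤ i → N i i ≤ 3 * (s i * δ i + s i * δ i))
    (hdiv : ∀ i j, 1 ≤ i → 1 ≤ j → s j * δ i ≤ 3 * N i j + 2 * (s i * δ j))
    (h0 : ∀ k, 1 ≤ k → k ≤ 2 → δ k ≤ φ * (s k * cl)) {k : ℕ} (hk : 1 ≤ k) :
    δ k ≤ 20 * ((k : ℝ) + 1) ^ (4 * d + 11) * (φ * cl) := by
  -- the chain
  have hchain : ∀ L t, 1 ≤ L → t + 1 ≤ L → N (L + t) (L - t) ≤ N L L := by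
    intro L t hL
    induction t with
    | zero => intro _; exact le_rfl
    | succ t ih =>
      intro ht
      have h1 := hN (L + t) (L - (t + 1)) (by omega) (by omega)
      have e1 : L - (t + 1) + 1 = L - t := by omega
      have e2 : L + t + 1 = L + (t + 1) := by ring
      rw [e1, e2] at h1
      exact h1.trans (ih (by omega))
  -- the steps
  have hP : ∀ i, ∀ k, 1 ≤ k → k ≤ Ls i →
      δ k ≤ (20 ^ i * (ts s i * ts s (i + 1) * ts s (i + 2)) * φ) * (s k * cl) := by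
    intro i
    induction i with
    | zero =>
      intro k hk1 hk2
      have e : (20 : ℝ) ^ 0 * (((ts s 0 : ℕ) : ℝ) * ts s (0 + 1) * ts s (0 + 2)) * φ = φ := by
        have e0 : ts s 0 = 1 := rfl
        have e1 : ts s (0 + 1) = 1 := rfl
        have e2 : ts s (0 + 2) = 1 := rfl
        rw [e0, e1, e2]
        norm_num
      rw [e]
      exact h0 k hk1 hk2
    | succ i ih =>
      intro k hk1 hk2
      obtain ⟨U, hU⟩ : ∃ U : ℝ, 20 ^ i * (ts s i * ts s (i + 1) * ts s (i + 2)) * φ = U :=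
        ⟨_, rfl⟩
      obtain ⟨U', hU'⟩ : ∃ U' : ℝ,
        20 ^ (i + 1) * (ts s (i + 1) * ts s (i + 1 + 1) * ts s (i + 1 + 2)) * φ = U' := ⟨_, rfl⟩
      rw [hU'] 
      rw [hU] at ih
      have hU0 : 0 ≤ U := by rw [← hU]; positivity
      have hU'0 : 0 ≤ U' := by rw [← hU']; positivity
      have e3 : ts s (i + 3) = s (Ls i) := rfl
      have hUU : 20 * s (Ls i) * U = ts s i * U' := by
        have e4 : ts s (i + 1 + 1) = ts s (i + 2) := rfl
        have e5 : ts s (i + 1 + 2) = s (Ls i) := rfl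
        rw [← hU, ← hU', e4, e5, pow_succ]
        ring
      have h2L := two_le_Ls i
      have hτ : (1 : ℝ) ≤ ts s i := by exact_mod_cast one_le_ts hs hlc i
      have hτL : (ts s i : ℝ) ≤ s (Ls i) := by
        exact_mod_cast ts_le_half hs hlc (i := i) (j := Ls i) (by omega)
      have hsk0 : (0 : ℝ) ≤ s k := Nat.cast_nonneg _
      have hskc : (0 : ℝ) ≤ s k * cl := mul_nonneg hsk0 hcl
      by_cases hkL : k ≤ Ls i
      · -- `U ≤ U'`
        refine (ih k hk1 hkL).trans (mul_le_mul_of_nonneg_right ?_ hskc)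
        have h1 : ts s i * U ≤ ts s i * U' := by
          rw [← hUU]
          have h2 : (ts s i : ℝ) * U ≤ s (Ls i) * U := mul_le_mul_of_nonneg_right hτL hU0
          have h3 : (0 : ℝ) ≤ s (Ls i) * U := mul_nonneg (Nat.cast_nonneg _) hU0
          linarith
        exact le_of_mul_le_mul_left h1 (by linarith)
      · have hkL' : Ls i < k := lt_of_not_ge hkL
        have e6 : Ls (i + 1) = 3 * Ls i / 2 := rfl
        obtain ⟨t, rfl⟩ := Nat.exists_eq_add_of_lt hkL'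
        have e7 : Ls i + t + 1 = Ls i + (t + 1) := by ring
        rw [e7] at hk2 hskc hsk0 ⊢
        obtain ⟨L, hL⟩ : ∃ L, Ls i = L := ⟨_, rfl⟩
        rw [hL] at ih hk2 hskc hsk0 hUU hτL h2L e6 ⊢
        have ht : t + 1 + 1 ≤ L := by omega
        have h1 := hchain L (t + 1) (by omega) ht
        have h2 := hmul L (by omega)
        have h3 := hdiv (L + (t + 1)) (L - (t + 1)) (by omega) (by omega)
        have h4 := ih L (by omega) le_rfl
        have h5 := ih (L - (t + 1)) (by omega) (by omega)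
        have h6 : (s L : ℝ) ≤ s (L + (t + 1)) := by
          exact_mod_cast s_mono hs hlc (by omega) (by omega)
        have h7 : (s (L - (t + 1)) : ℝ) ≤ s L := by
          exact_mod_cast s_mono hs hlc (by omega) (by omega)
        have h8 : (ts s i : ℝ) ≤ s (L - (t + 1)) := by
          exact_mod_cast ts_le_half hs hlc (i := i) (by rw [hL]; omega)
        have hj1 : (1 : ℝ) ≤ s (L - (t + 1)) := by exact_mod_cast hs _
        have hL0 : (0 : ℝ) ≤ s L := Nat.cast_nonneg _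
        obtain ⟨x, hx⟩ : ∃ x : ℝ, (s (L - (t + 1)) : ℝ) = x := ⟨_, rfl⟩
        obtain ⟨y, hy⟩ : ∃ y : ℝ, (s (L + (t + 1)) : ℝ) = y := ⟨_, rfl⟩
        obtain ⟨z, hz⟩ : ∃ z : ℝ, (s L : ℝ) = z := ⟨_, rfl⟩
        rw [hx] at h3 h5 h7 h8 hj1
        rw [hy] at h3 h6 hskc hsk0 ⊢
        rw [hz] at h2 h4 h6 h7 hL0 hUU hτL
        have h9 : 3 * N (L + (t + 1)) (L - (t + 1)) ≤ 18 * (z * (U * (z * cl))) := by
          have h10 : z * δ L ≤ z * (U * (z * cl)) := mul_le_mul_of_nonneg_left h4 hL0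
          linarith
        have h10 : y * δ (L - (t + 1)) ≤ y * (U * (x * cl)) :=
          mul_le_mul_of_nonneg_left h5 hsk0
        have hUc : 0 ≤ U * cl := mul_nonneg hU0 hcl
        have h11 : z * (U * (z * cl)) ≤ z * (y * (U * cl)) := by
          have h12 : z * (U * cl) ≤ y * (U * cl) := mul_le_mul_of_nonneg_right h6 hUc
          have h13 := mul_le_mul_of_nonneg_left h12 hL0
          calc z * (U * (z * cl)) = z * (z * (U * cl)) := by ring
            _ ≤ _ := h13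
        have h12 : y * (U * (x * cl)) ≤ z * (y * (U * cl)) := by
          have h13 : x * (y * (U * cl)) ≤ z * (y * (U * cl)) :=
            mul_le_mul_of_nonneg_right h7 (mul_nonneg hsk0 hUc)
          calc y * (U * (x * cl)) = x * (y * (U * cl)) := by ring
            _ ≤ _ := h13
        have h13 : x * δ (L + (t + 1)) ≤ 20 * (z * (y * (U * cl))) := by linarith
        have h14 : 20 * (z * (y * (U * cl))) = ts s i * U' * (y * cl) := by
          rw [← hUU]; ring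
        have h15 : ts s i * U' * (y * cl) ≤ x * (U' * (y * cl)) := by
          have h16 : (ts s i : ℝ) * (U' * (y * cl)) ≤ x * (U' * (y * cl)) :=
            mul_le_mul_of_nonneg_right h8 (mul_nonneg hU'0 hskc)
          calc ts s i * U' * (y * cl) = ts s i * (U' * (y * cl)) := by ring
            _ ≤ _ := h16
        have h17 : x * δ (L + (t + 1)) ≤ x * (U' * (y * cl)) := by
          rw [h14] at h13
          exact h13.trans h15
        exact le_of_mul_le_mul_left h17 (by linarith)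
  -- the first `i` with `k ≤ Ls i`
  have hsk : (s k : ℝ) ≤ ((k : ℝ) + 1) ^ d := by exact_mod_cast hsd k
  have hk1 : (1 : ℝ) ≤ (k : ℝ) + 1 := by
    have := Nat.cast_nonneg (α := ℝ) k
    linarith
  have hex : ∃ i, k ≤ Ls i := ⟨k, le_Ls k⟩
  obtain ⟨i, hi⟩ : ∃ i, Nat.find hex = i := ⟨_, rfl⟩
  have hki : k ≤ Ls i := by rw [← hi]; exact Nat.find_spec hex
  have h1 := hP i k hk hki
  have key : (20 : ℝ) ^ i * (ts s i * ts s (i + 1) * ts s (i + 2)) ≤
      20 * ((k : ℝ) + 1) ^ 11 * (((k : ℝ) + 1) ^ d) ^ 3 := by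
    rcases Nat.eq_zero_or_pos i with rfl | hpos
    · have e0 : ts s 0 = 1 := rfl
      have e1 : ts s (0 + 1) = 1 := rfl
      have e2 : ts s (0 + 2) = 1 := rfl
      rw [e0, e1, e2, pow_zero]
      have h2 : (1 : ℝ) ≤ ((k : ℝ) + 1) ^ 11 := one_le_pow₀ hk1
      have h3 : (1 : ℝ) ≤ (((k : ℝ) + 1) ^ d) ^ 3 := one_le_pow₀ (one_le_pow₀ hk1)
      have h4 : (1 : ℝ) * 1 ≤ ((k : ℝ) + 1) ^ 11 * (((k : ℝ) + 1) ^ d) ^ 3 :=
        mul_le_mul h2 h3 zero_le_one (by positivity)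
      push_cast
      linarith
    · obtain ⟨m, rfl⟩ : ∃ m, i = m + 1 := ⟨i - 1, by omega⟩
      have hm : Ls m ≤ k := by
        have h2 : ¬ k ≤ Ls m := Nat.find_min hex (by rw [hi]; omega)
        omega
      have h2 : (ts s (m + 1) : ℝ) ≤ s k := by exact_mod_cast ts_le hs hlc hm (by omega)
      have h3 : (ts s (m + 1 + 1) : ℝ) ≤ s k := by exact_mod_cast ts_le hs hlc hm (by omega)
      have h4 : (ts s (m + 1 + 2) : ℝ) ≤ s k := by exact_mod_cast ts_le hs hlc hm (by omega)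
      have h5 : (20 : ℝ) ^ (m + 1) ≤ 20 * ((k : ℝ) + 1) ^ 11 := by
        rw [pow_succ, mul_comm]
        refine mul_le_mul_of_nonneg_left ?_ (by norm_num)
        refine (twenty_pow m).trans (pow_le_pow_left₀ (Nat.cast_nonneg _) ?_ 11)
        have : (Ls m : ℝ) ≤ k := by exact_mod_cast hm
        linarith
      have h6 : (ts s (m + 1) : ℝ) * ts s (m + 1 + 1) * ts s (m + 1 + 2) ≤
          (((k : ℝ) + 1) ^ d) ^ 3 := by
        have e : (((k : ℝ) + 1) ^ d) ^ 3 =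
            ((k : ℝ) + 1) ^ d * ((k : ℝ) + 1) ^ d * ((k : ℝ) + 1) ^ d := by ring
        rw [e]
        refine mul_le_mul (mul_le_mul (h2.trans hsk) (h3.trans hsk) (Nat.cast_nonneg _)
          (by positivity)) (h4.trans hsk) (Nat.cast_nonneg _) (by positivity)
      exact mul_le_mul h5 h6 (by positivity) (by positivity)
  calc δ k ≤ (20 ^ i * (ts s i * ts s (i + 1) * ts s (i + 2)) * φ) * (s k * cl) := h1
    _ = (20 ^ i * (ts s i * ts s (i + 1) * ts s (i + 2))) * s k * (φ * cl) := by ring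
    _ ≤ (20 * ((k : ℝ) + 1) ^ 11 * (((k : ℝ) + 1) ^ d) ^ 3) * ((k : ℝ) + 1) ^ d * (φ * cl) := by
        refine mul_le_mul_of_nonneg_right ?_ (mul_nonneg hφ hcl)
        exact mul_le_mul key hsk (Nat.cast_nonneg _) (by positivity)
    _ = 20 * ((k : ℝ) + 1) ^ (4 * d + 11) * (φ * cl) := by
        rw [show 4 * d + 11 = 11 + d * 3 + d by ring, pow_add, pow_add, pow_mul]
        ring

end

/-- **The polynomial rate, numerical part, without Koszul identities.** -/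
theorem poly_numeric2 (b d r D0 : ℕ) (hb : 1 ≤ b) (hr : 1 ≤ r) : ∃ C α : ℝ, 0 < C ∧ 0 < α ∧
    ∀ (a c s : ℕ → ℕ) (A : ℕ → ℕ → ℕ) (B : ℕ → ℕ → ℕ → ℕ),
    (∀ l, 1 ≤ c l) → (∀ l, c l ≤ b ^ (2 * (l + 1))) → (∀ l, c (l + 1) ^ 2 ≤ c l * c (l + 2)) →
    (∀ l, b ^ (2 * l) ≤ a l * (l + 2) ^ D0) →
    (∀ k, 1 ≤ s k) → (∀ k, s k ≤ (k + 1) ^ d) →
    (∀ i j, 1 ≤ j → j + 1 ≤ i → s (i + 1) * s j ≤ s i * s (j + 1)) →
    (∀ l i j, 1 ≤ j → j + 1 ≤ i → (s (i + 1) * s j * c l : ℤ) - B l (i + 1) j ≤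
      s i * s (j + 1) * c l - B l i (j + 1)) →
    (∀ l i j, 1 ≤ i → 1 ≤ j → (s i * s j * c l : ℤ) - B l i j ≤
      3 * (s j * (s i * c l - A l i) + s i * (s j * c l - A l j))) →
    (∀ l i j, 1 ≤ i → 1 ≤ j → (s j : ℤ) * (s i * c l - A l i) ≤
      3 * (s i * s j * c l - B l i j) + 2 * (s i * (s j * c l - A l j))) →
    (∀ l i, 1 ≤ i → A l i ≤ s i * c l) →
    (∀ l k, 1 ≤ k → s k * c l + c (l + r * k) ≤ A l k + b ^ (2 * r * k) * c l) →
    (∀ l k0, (∀ k < k0, s (k + 1) * c l < A l (k + 1) + c l) →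
      c l + ∑ k ∈ range k0, A l (k + 1) ≤ a l + ∑ k ∈ range k0, (s (k + 1) - 1) * c l) →
    ∀ l : ℕ, (c l : ℝ) * ((l : ℝ) + 2) ^ α ≤ C * a l := by
  obtain ⟨D, hDdef⟩ : ∃ D : ℕ, D0 + 1 + b ^ 2 = D := ⟨_, rfl⟩
  obtain ⟨n, hndef⟩ : ∃ n : ℕ, 4 * d + 13 = n := ⟨_, rfl⟩
  have hn : n ≠ 0 := by omega
  have hn0 : (0 : ℝ) < n := by exact_mod_cast Nat.pos_of_ne_zero hn
  obtain ⟨M0, hM0⟩ : ∃ M0 : ℝ, 60 * (b : ℝ) ^ (4 * r) * r * D * n = M0 := ⟨_, rfl⟩
  have hM0' : 0 ≤ M0 := by rw [← hM0]; positivity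
  refine ⟨4 * M0 + 2, (n : ℝ)⁻¹, by positivity, by positivity, ?_⟩
  intro a c s A B hc hcb hconv hgr hs1 hsd hlc hsum2 hmul hdiv hA hlow hlay l
  obtain ⟨y, hy⟩ : ∃ y : ℝ, ((l : ℝ) + 2) ^ ((n : ℝ)⁻¹) = y := ⟨_, rfl⟩
  rw [hy]
  have hl00 : (0 : ℝ) ≤ l := Nat.cast_nonneg l
  have hyn : y ^ n = (l : ℝ) + 2 := by
    rw [← hy]
    exact Real.rpow_inv_natCast_pow (by positivity) hn
  have hy1 : 1 ≤ y := by
    rw [← hy]
    exact Real.one_le_rpow (by linarith) (by positivity)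
  have hy0 : 0 < y := by linarith
  have hac : (c l : ℝ) ≤ a l := by
    have h := hlay l 0 (fun k hk => absurd hk (Nat.not_lt_zero k))
    rw [range_zero, sum_empty, sum_empty, add_zero, add_zero] at h
    exact_mod_cast h
  have hyl : y ≤ l + 2 := by
    rw [← hyn]
    exact le_self_pow₀ hy1 hn
  have hcp : (0 : ℝ) < c l := by exact_mod_cast hc l
  have hap : (0 : ℝ) < a l := lt_of_lt_of_le hcp hac
  have hMa : 0 ≤ 4 * M0 * a l := by positivity
  by_cases hy4 : y < 4 * M0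
  · calc (c l : ℝ) * y ≤ a l * (4 * M0) := mul_le_mul hac hy4.le hy0.le hap.le
      _ ≤ (4 * M0 + 2) * a l := by linarith
  by_cases hbig : (c l : ℝ) * (l + 2) ≤ a l
  · calc (c l : ℝ) * y ≤ c l * (l + 2) := mul_le_mul_of_nonneg_left hyl hcp.le
      _ ≤ a l := hbig
      _ ≤ (4 * M0 + 2) * a l := by linarith
  rcases Nat.eq_zero_or_pos l with hl0 | hl
  · subst hl0
    rw [Nat.cast_zero, zero_add] at hyl
    calc (c 0 : ℝ) * y ≤ a 0 * 2 := mul_le_mul hac hyl hy0.le hap.le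
      _ ≤ (4 * M0 + 2) * a 0 := by linarith
  have hy4 := le_of_not_gt hy4
  have hbig := lt_of_not_ge hbig
  have hl1 : (1 : ℝ) ≤ l := by exact_mod_cast hl
  have hb1 : (1 : ℝ) ≤ b := by exact_mod_cast hb
  -- the ratios of `c`
  have hgr' : (b : ℝ) ^ (2 * l) * c 0 ≤ c l * ((l : ℝ) + 2) ^ D := by
    have e1 : (b : ℝ) ^ (2 * l) ≤ a l * ((l : ℝ) + 2) ^ D0 := by exact_mod_cast hgr l
    have e3 : (c 0 : ℝ) ≤ ((l : ℝ) + 2) ^ (b ^ 2) := by
      have h3 : c 0 ≤ 2 ^ (b ^ 2) := (hcb 0).trans (by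
        rw [zero_add, mul_one]
        exact Nat.lt_two_pow_self.le)
      have h4 : ((c 0 : ℕ) : ℝ) ≤ (2 : ℝ) ^ (b ^ 2) := by exact_mod_cast h3
      exact h4.trans (pow_le_pow_left₀ (by norm_num) (by linarith) _)
    calc (b : ℝ) ^ (2 * l) * c 0 ≤ (a l * ((l : ℝ) + 2) ^ D0) * ((l : ℝ) + 2) ^ (b ^ 2) :=
          mul_le_mul e1 e3 (Nat.cast_nonneg _) (by positivity)
      _ ≤ ((c l * (l + 2)) * ((l : ℝ) + 2) ^ D0) * ((l : ℝ) + 2) ^ (b ^ 2) := by
          gcongr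
      _ = c l * ((l : ℝ) + 2) ^ D := by
          rw [← hDdef, pow_add, pow_succ]
          ring
  obtain ⟨q, hq⟩ : ∃ q : ℝ, D * Real.log (l + 2) / l = q := ⟨_, rfl⟩
  have hlog0 : 0 ≤ Real.log ((l : ℝ) + 2) := Real.log_nonneg (by linarith)
  have hq0 : 0 ≤ q := by rw [← hq]; positivity
  -- the defects
  obtain ⟨φ, hφ⟩ : ∃ φ : ℝ, (b : ℝ) ^ (4 * r) * (2 * r) * q = φ := ⟨_, rfl⟩
  have hφ0 : 0 ≤ φ := by rw [← hφ]; positivity
  have hdef : ∀ k, 1 ≤ k → (s k : ℝ) * c l - A l k ≤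
      20 * ((k : ℝ) + 1) ^ (4 * d + 11) * (φ * c l) := by
    intro k hk
    refine defect_bound2 hs1 hlc hsd hcp.le hφ0 (δ := fun k => (s k : ℝ) * c l - A l k)
      (N := fun i j => (s i : ℝ) * s j * c l - B l i j) ?_ ?_ ?_ ?_ hk
    · intro i j hj hij
      exact_mod_cast hsum2 l i j hj hij
    · intro i hi
      exact_mod_cast hmul l i i hi hi
    · intro i j hi hj
      exact_mod_cast hdiv l i j hi hj
    · intro j hj1 hj2
      have h1 := Pool.Agent.Helper47.PR.ratio_at hb hc hconv hl hgr' (r * j)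
      rw [hq] at h1
      have h2 : (s j : ℝ) * c l + c (l + r * j) ≤ A l j + (b : ℝ) ^ (2 * r * j) * c l := by
        exact_mod_cast hlow l j hj1
      have h3 : 2 * (r * j) = 2 * r * j := by ring
      rw [h3] at h1
      have h4 : (b : ℝ) ^ (2 * r * j) ≤ (b : ℝ) ^ (4 * r) :=
        pow_le_pow_right₀ hb1 (by nlinarith)
      have h5 : ((r * j : ℕ) : ℝ) ≤ 2 * r := by
        have h6 : r * j ≤ 2 * r := by nlinarith
        exact_mod_cast h6
      have h6 : (b : ℝ) ^ (2 * r * j) * ((r * j : ℕ) : ℝ) ≤ (b : ℝ) ^ (4 * r) * (2 * r) :=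
        mul_le_mul h4 h5 (Nat.cast_nonneg _) (by positivity)
      have h7 : (b : ℝ) ^ (2 * r * j) * ((r * j : ℕ) : ℝ) * (q * c l) ≤
          (b : ℝ) ^ (4 * r) * (2 * r) * (q * c l) :=
        mul_le_mul_of_nonneg_right h6 (by positivity)
      have h8 : (s j : ℝ) * c l - A l j ≤ φ * c l := by
        rw [← hφ]
        nlinarith [h1, h2, h7]
      have h9 : (1 : ℝ) ≤ s j := by exact_mod_cast hs1 j
      have h10 : φ * (c l : ℝ) ≤ φ * (s j * c l) := by
        refine mul_le_mul_of_nonneg_left ?_ hφ0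
        exact le_mul_of_one_le_left hcp.le h9
      exact h8.trans h10
  -- the number of layers
  obtain ⟨K, hK⟩ : ∃ K : ℕ, ⌊y⌋₊ = K := ⟨_, rfl⟩
  have hK1 : 1 ≤ K := by
    rw [← hK]
    exact Nat.le_floor (by exact_mod_cast hy1)
  have hKy : (K : ℝ) ≤ y := by
    rw [← hK]
    exact Nat.floor_le hy0.le
  have hyK : y < K + 1 := by
    rw [← hK]
    exact Nat.lt_floor_add_one y
  have hsmall : 20 * (K : ℝ) ^ (4 * d + 11) * φ ≤ 1 / 2 := by
    have hql : q * l = D * Real.log (l + 2) := by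
      rw [← hq, div_mul_cancel₀ _ (by positivity)]
    have hlogy : Real.log ((l : ℝ) + 2) ≤ n * y := by
      rw [← hyn, Real.log_pow]
      exact mul_le_mul_of_nonneg_left ((Real.log_le_sub_one_of_pos hy0).trans (by linarith))
        hn0.le
    have h2 : (K : ℝ) ^ (4 * d + 11) ≤ y ^ (4 * d + 11) :=
      pow_le_pow_left₀ (Nat.cast_nonneg _) hKy _
    have h3 : 20 * (K : ℝ) ^ (4 * d + 11) * φ * l ≤
        20 * y ^ (4 * d + 11) * ((b : ℝ) ^ (4 * r) * (2 * r) * (D * (n * y))) := by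
      calc 20 * (K : ℝ) ^ (4 * d + 11) * φ * l
          = 20 * (K : ℝ) ^ (4 * d + 11) * ((b : ℝ) ^ (4 * r) * (2 * r) * (q * l)) := by
            rw [← hφ]; ring
        _ = 20 * (K : ℝ) ^ (4 * d + 11) *
            ((b : ℝ) ^ (4 * r) * (2 * r) * (D * Real.log (l + 2))) := by rw [hql]
        _ ≤ _ := by gcongr
    have h4 : 20 * y ^ (4 * d + 11) * ((b : ℝ) ^ (4 * r) * (2 * r) * (D * (n * y))) * 3 =
        2 * M0 * y ^ (4 * d + 12) := by
      rw [← hM0, show 4 * d + 12 = 4 * d + 11 + 1 by ring, pow_succ y]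
      ring
    have h5 : 2 * M0 * y ^ (4 * d + 12) ≤ y ^ n * (1 / 2) := by
      have h6 : y ^ n = y * y ^ (4 * d + 12) := by
        rw [← hndef, show 4 * d + 13 = 4 * d + 12 + 1 by ring, pow_succ]
        ring
      have h7 : 0 ≤ y ^ (4 * d + 12) := by positivity
      calc 2 * M0 * y ^ (4 * d + 12) ≤ (y * (1 / 2)) * y ^ (4 * d + 12) :=
            mul_le_mul_of_nonneg_right (by linarith) h7
        _ = y ^ n * (1 / 2) := by rw [h6]; ring
    have h6 : y ^ n ≤ 3 * l := by rw [hyn]; linarith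
    have hX0 : 0 ≤ 20 * (K : ℝ) ^ (4 * d + 11) * φ := by positivity
    have hyn0 : 0 < y ^ n := by positivity
    have h7 : 20 * (K : ℝ) ^ (4 * d + 11) * φ * y ^ n ≤ 1 / 2 * y ^ n := by
      calc 20 * (K : ℝ) ^ (4 * d + 11) * φ * y ^ n
          ≤ 20 * (K : ℝ) ^ (4 * d + 11) * φ * (3 * l) := mul_le_mul_of_nonneg_left h6 hX0
        _ = 20 * (K : ℝ) ^ (4 * d + 11) * φ * l * 3 := by ring
        _ ≤ 20 * y ^ (4 * d + 11) * ((b : ℝ) ^ (4 * r) * (2 * r) * (D * (n * y))) * 3 :=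
            mul_le_mul_of_nonneg_right h3 (by norm_num)
        _ = 2 * M0 * y ^ (4 * d + 12) := h4
        _ ≤ 1 / 2 * y ^ n := by rw [mul_comm (1 / 2 : ℝ)]; exact h5
    exact le_of_mul_le_mul_right h7 hyn0
  -- the layers
  obtain ⟨k0, rfl⟩ : ∃ k0, K = k0 + 1 := ⟨K - 1, by omega⟩
  have hgain : ∀ k ∈ range k0, ((s (k + 1) : ℝ) - 1) * c l + c l / 2 ≤ A l (k + 1) := by
    intro k hk
    rw [mem_range] at hk
    have h1 := hdef (k + 1) (by omega)
    have h2 : 20 * (((k + 1 : ℕ) : ℝ) + 1) ^ (4 * d + 11) * (φ * c l) ≤ c l / 2 := by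
      have h3 : (((k + 1 : ℕ) : ℝ) + 1) ≤ ((k0 + 1 : ℕ) : ℝ) := by
        exact_mod_cast (by omega : k + 1 + 1 ≤ k0 + 1)
      have h4 : (((k + 1 : ℕ) : ℝ) + 1) ^ (4 * d + 11) ≤ ((k0 + 1 : ℕ) : ℝ) ^ (4 * d + 11) :=
        pow_le_pow_left₀ (by positivity) h3 _
      calc 20 * (((k + 1 : ℕ) : ℝ) + 1) ^ (4 * d + 11) * (φ * c l)
          ≤ 20 * ((k0 + 1 : ℕ) : ℝ) ^ (4 * d + 11) * (φ * c l) := by gcongr
        _ = (20 * ((k0 + 1 : ℕ) : ℝ) ^ (4 * d + 11) * φ) * c l := by ring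
        _ ≤ 1 / 2 * c l := mul_le_mul_of_nonneg_right hsmall hcp.le
        _ = c l / 2 := by ring
    linarith
  have hlay' : (c l : ℝ) + ∑ k ∈ range k0, (A l (k + 1) : ℝ) ≤
      a l + ∑ k ∈ range k0, ((s (k + 1) : ℝ) - 1) * c l := by
    have h := hlay l k0 (fun k hk => by
      have h1 := hgain k (mem_range.2 hk)
      have h2 : (s (k + 1) : ℝ) * c l < A l (k + 1) + c l := by linarith
      exact_mod_cast h2)
    have h2 : ((c l + ∑ k ∈ range k0, A l (k + 1) : ℕ) : ℝ) ≤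
        ((a l + ∑ k ∈ range k0, (s (k + 1) - 1) * c l : ℕ) : ℝ) := by exact_mod_cast h
    rw [Nat.cast_add, Nat.cast_add, Nat.cast_sum, Nat.cast_sum] at h2
    refine h2.trans (le_of_eq ?_)
    congr 1
    refine sum_congr rfl fun k _ => ?_
    rw [Nat.cast_mul, Nat.cast_sub (hs1 _), Nat.cast_one]
  have hsum := sum_le_sum hgain
  rw [sum_add_distrib, sum_const, card_range, nsmul_eq_mul] at hsum
  push_cast at hyK
  have hfin : (c l : ℝ) + k0 * (c l / 2) ≤ a l := by linarith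
  have hcy : (c l : ℝ) * y ≤ c l * (k0 + 1 + 1) := mul_le_mul_of_nonneg_left hyK.le hcp.le
  have hcy2 : (c l : ℝ) * (k0 + 1 + 1) = 2 * (c l + k0 * (c l / 2)) := by ring
  linarith

end Pool.Agent.Helper59.P2
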